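import Pool.Agent.helper62.RP.Spec

set_option autoImplicit false

namespace Pool.Agent.RP

open FreeGroup

theorem CYC_mid (A B C L : List Ltr) (h : FreeGroup.IsReduced L) (e : A ++ B ++ C = L) :
    FreeGroup.IsReduced B := by
  subst e
  exact List.IsChain.right_of_append (List.IsChain.left_of_append h)

theorem CYC_sep (L₁ L₂ : List Ltr) (h : FreeGroup.IsReduced (L₁ ++ L₂)) :
    Sep (FreeGroup.mk L₁)⁻¹ (FreeGroup.mk L₂) := by
  have h1 : IsReduced L₁ := CYC_mid [] L₁ L₂ _ h (by simp)
  have h2 : IsReduced L₂ := CYC_mid L₁ L₂ [] _ h (by simp)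
  rcases List.eq_nil_or_concat L₁ with rfl | ⟨L₁', a, rfl⟩
  · left
    simp [FreeGroup.one_eq_mk]
  rcases L₂ with _ | ⟨b, L₂'⟩
  · right; left
    simp [FreeGroup.one_eq_mk]
  right; right
  rw [toWord_inv, toWord_mk, toWord_mk, h1.reduce_eq, h2.reduce_eq]
  intro he
  simp only [List.concat_eq_append, invRev_append, List.head?_cons] at he
  have he2 : (a.1, !a.2) = b := by
    simpa [invRev] using he
  have h3 : IsReduced ([a] ++ [b]) := by
    exact CYC_mid L₁' _ L₂' _ h (by simp)
  have h4 : a.1 = b.1 → a.2 = b.2 := by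
    simpa [FreeGroup.IsReduced] using h3
  rw [← he2] at h4
  have := h4 rfl
  simp at this

theorem CYC : CYC_stmt := by
  intro v hv
  set W := v.toWord with hW
  set C := reduceCyclically.conjugator W with hC
  set R := reduceCyclically W with hR
  have hWr : IsReduced W := isReduced_toWord
  have hCR : C ++ R ++ invRev C = W := reduceCyclically.conj_conjugator_reduceCyclically W
  have hRr : IsCyclicallyReduced R := reduceCyclically.isCyclicallyReduced hWr
  have hred : ∀ k : ℕ, k ≠ 0 → IsReduced (C ++ (List.replicate k R).flatten ++ invRev C) := by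
    intro k hk
    exact IsReduced.append_flatten_replicate_append hRr (by rw [hCR]; exact hWr) hk
  have hvm : v = FreeGroup.mk W := (mk_toWord).symm
  have hv2 : v = FreeGroup.mk C * FreeGroup.mk R * (FreeGroup.mk C)⁻¹ := by
    rw [inv_mk, mul_mk, mul_mk, hCR]
    exact hvm
  refine ⟨FreeGroup.mk C, FreeGroup.mk R, hv2, ?_, ?_⟩
  · intro hu
    apply hv
    rw [hv2, hu, mul_one, mul_inv_cancel]
  · intro k hk
    have hk1 : k ≠ 0 := by omega
    have hk2 : k - 1 ≠ 0 := by omega
    refine ⟨?_, ?_, ?_⟩
    · rw [pow_mk, inv_mk (L := C), mul_mk, ← inv_mk]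
      apply CYC_sep
      have := hred k hk1
      rwa [List.append_assoc] at this
    · rw [pow_mk, inv_mk (L := C), mul_mk]
      apply CYC_sep
      have h1 := hred k hk1
      have h2 : List.replicate k R = R :: List.replicate (k - 1) R := by
        rw [← List.replicate_succ]
        congr 1
        omega
      rw [h2, List.flatten_cons] at h1
      exact CYC_mid C _ [] _ h1 (by simp)
    · rw [pow_mk, inv_mk (L := C)]
      apply CYC_sep
      exact CYC_mid C _ [] _ (hred (k - 1) hk2) (by simp)

end Pool.Agent.RP
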