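import Pool.Agent.helper62.RP.Spec

set_option autoImplicit false

open Polynomial Filter
open Pool.Agent.QU

namespace Pool.Agent.RP

theorem MUB_coeff (h : ℝ[X]) (a : MonoidAlgebra ℂ F2) (w : F2) :
    (pev h a).coeff w = ∑ i ∈ Finset.range (h.natDegree + 1), ((h.coeff i : ℝ) : ℂ) * (a ^ i).coeff w := by
  unfold pev
  rw [MonoidAlgebra.coeff_sum, Finsupp.finsetSum_apply]
  rfl

theorem MUB_supp (a : MonoidAlgebra ℂ F2) (q : ℕ) (ha : ∀ t ∈ a.coeff.support, t.norm ≤ q) (i : ℕ) :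
    ∀ w ∈ (a ^ i).coeff.support, w.norm ≤ q * i := by
  induction i with
  | zero =>
    intro w hw
    rw [pow_zero] at hw
    have : w = 1 := by
      by_contra hne
      apply (Finsupp.mem_support_iff.1 hw)
      rw [MonoidAlgebra.one_def]
      simp [MonoidAlgebra.coeff_single, Ne.symm hne]
    rw [this]
    simp
  | succ i ih =>
    intro w hw
    rw [pow_succ] at hw
    have h1 := MonoidAlgebra.support_coeff_mul_subset _ _ hw
    obtain ⟨x, hx, y, hy, rfl⟩ := Finset.mem_mul.1 h1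
    have h2 := ih x hx
    have h3 := ha y hy
    have h4 := FreeGroup.norm_mul_le x y
    have h5 : q * (i + 1) = q * i + q := by ring
    omega

theorem MUB_norm (h1 : RNB_stmt) (a : MonoidAlgebra ℂ F2) (i : ℕ) (w : F2) :
    ‖(a ^ i).coeff w‖ ≤ regNorm a ^ i := by
  obtain ⟨_, _, _, _, r5, r6, _, r8, _⟩ := h1 F2 (a ^ i) 1
  obtain ⟨_, _, _, _, _, _, _, s8, _⟩ := h1 F2 a 1
  exact ((r6 w).trans r5).trans (s8 i)

/-- the sum over the `k`-th powers -/
theorem MUB_pow (h2 : PSM_stmt) (a : MonoidAlgebra ℂ F2) (q D k : ℕ) (h : ℝ[X])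
    (hr : 0 ≤ regNorm a)
    (ha : ∀ t ∈ a.coeff.support, t.norm ≤ q) (hD : h.natDegree ≤ D) (hk : 2 ≤ k) (T : Finset F2)
    (hT : ∀ w ∈ T, w ≠ 1 ∧ ∃ v : F2, v ^ k = w) :
    ∑ w ∈ T, ‖(pev h a).coeff w‖ ≤ ((D : ℝ) + 1) ^ 3 * ((ball q).card : ℝ) ^ 3 * maj h (regNorm a) := by
  classical
  have hex : ∀ w : F2, ∃ v : F2, w ∈ T → v ^ k = w := by
    intro w
    by_cases hw : w ∈ T
    · obtain ⟨v, hv⟩ := (hT w hw).2
      exact ⟨v, fun _ => hv⟩
    · exact ⟨1, fun h => absurd h hw⟩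
  choose r hr2 using hex
  have hinj : Set.InjOn r (T : Set F2) := by
    intro x hx y hy hxy
    rw [← hr2 x hx, ← hr2 y hy, hxy]
  have hS1 : (1 : F2) ∉ T.image r := by
    intro hm
    obtain ⟨w, hw, hw2⟩ := Finset.mem_image.1 hm
    have h3 := hr2 w hw
    rw [hw2, one_pow] at h3
    exact (hT w hw).1 h3.symm
  have e1 : ∀ p : ℕ, ∑ w ∈ T, ‖(a ^ p).coeff w‖ ≤
      ((p : ℝ) + 1) ^ 3 * ((ball q).card : ℝ) ^ 3 * regNorm a ^ p := by
    intro p
    have h3 := h2 a q ha k p hk (T.image r) hS1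
    rw [Finset.sum_image hinj] at h3
    refine le_trans (le_of_eq ?_) h3
    apply Finset.sum_congr rfl
    intro w hw
    rw [hr2 w hw]
  have e2 : ∀ w, ‖(pev h a).coeff w‖ ≤
      ∑ i ∈ Finset.range (h.natDegree + 1), |h.coeff i| * ‖(a ^ i).coeff w‖ := by
    intro w
    rw [MUB_coeff]
    refine (norm_sum_le _ _).trans (le_of_eq ?_)
    apply Finset.sum_congr rfl
    intro i _
    rw [norm_mul, Complex.norm_real, Real.norm_eq_abs]
  calc ∑ w ∈ T, ‖(pev h a).coeff w‖
      ≤ ∑ w ∈ T, ∑ i ∈ Finset.range (h.natDegree + 1), |h.coeff i| * ‖(a ^ i).coeff w‖ :=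
        Finset.sum_le_sum (fun w _ => e2 w)
    _ = ∑ i ∈ Finset.range (h.natDegree + 1), |h.coeff i| * ∑ w ∈ T, ‖(a ^ i).coeff w‖ := by
        rw [Finset.sum_comm]
        simp only [Finset.mul_sum]
    _ ≤ ∑ i ∈ Finset.range (h.natDegree + 1),
          ((D : ℝ) + 1) ^ 3 * ((ball q).card : ℝ) ^ 3 * (|h.coeff i| * regNorm a ^ i) := by
        apply Finset.sum_le_sum
        intro i hi
        have hi2 : i ≤ D := by
          have := Finset.mem_range.1 hi
          omega
        have hi3 : (i : ℝ) ≤ D := by exact_mod_cast hi2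
        calc |h.coeff i| * ∑ w ∈ T, ‖(a ^ i).coeff w‖
            ≤ |h.coeff i| * (((i : ℝ) + 1) ^ 3 * ((ball q).card : ℝ) ^ 3 * regNorm a ^ i) :=
              mul_le_mul_of_nonneg_left (e1 i) (abs_nonneg _)
          _ ≤ |h.coeff i| * (((D : ℝ) + 1) ^ 3 * ((ball q).card : ℝ) ^ 3 * regNorm a ^ i) := by
              gcongr
          _ = _ := by ring
    _ = _ := by
        rw [← Finset.mul_sum]
        rfl

theorem MUB (h1 : RNB_stmt) (h2 : PSM_stmt) : MUB_stmt := by
  intro a q D L h ha hD hL hL1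
  have hr : 0 ≤ regNorm a := (h1 F2 a 1).1
  have hmaj : 0 ≤ maj h (regNorm a) := by
    unfold maj
    apply Finset.sum_nonneg
    intro i _
    positivity
  refine ⟨?_, ?_, ?_⟩
  · intro w hw
    have hw2 := Finsupp.mem_support_iff.1 hw
    rw [MUB_coeff] at hw2
    obtain ⟨i, hi, hi2⟩ := Finset.exists_ne_zero_of_sum_ne_zero hw2
    have hi3 : (a ^ i).coeff w ≠ 0 := fun h0 => hi2 (by rw [h0, mul_zero])
    have hi4 := MUB_supp a q ha i w (Finsupp.mem_support_iff.2 hi3)
    have hi5 : i ≤ D := by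
      have := Finset.mem_range.1 hi
      omega
    exact hi4.trans ((Nat.mul_le_mul_left q hi5).trans hL)
  · refine (Complex.abs_re_le_norm _).trans ?_
    rw [MUB_coeff]
    refine (norm_sum_le _ _).trans ?_
    unfold maj
    apply Finset.sum_le_sum
    intro i _
    rw [norm_mul, Complex.norm_real, Real.norm_eq_abs]
    exact mul_le_mul_of_nonneg_left (MUB_norm h1 a i 1) (abs_nonneg _)
  · classical
    have hdv : ∀ w : F2, (dv L w : ℝ) - 1 =
        ∑ k ∈ Finset.Icc 2 L, if (∃ v : F2, v ^ k = w) then (1 : ℝ) else 0 := by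
      intro w
      have e1 : (dv L w : ℝ) = ∑ k ∈ Finset.Icc 1 L, if (∃ v : F2, v ^ k = w) then (1 : ℝ) else 0 := by
        unfold dv
        rw [Finset.card_filter]
        push_cast
        apply Finset.sum_congr rfl
        intro k _
        by_cases hk : ∃ v : F2, v ^ k = w <;> simp [hk]
      rw [e1, ← Finset.sum_Ioc_add_eq_sum_Icc hL1]
      have e2 : Finset.Ioc 1 L = Finset.Icc 2 L := by
        ext k
        simp only [Finset.mem_Ioc, Finset.mem_Icc]
        omega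
      rw [e2, if_pos ⟨w, pow_one w⟩]
      ring
    have e3 : ∑ w ∈ (pev h a).coeff.support.erase 1, ((pev h a).coeff w).re * ((dv L w : ℝ) - 1) =
        ∑ k ∈ Finset.Icc 2 L, ∑ w ∈ ((pev h a).coeff.support.erase 1).filter (fun w => ∃ v : F2, v ^ k = w),
          ((pev h a).coeff w).re := by
      simp only [hdv, Finset.mul_sum]
      rw [Finset.sum_comm]
      apply Finset.sum_congr rfl
      intro k _
      rw [Finset.sum_filter]
      apply Finset.sum_congr rfl
      intro w _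
      by_cases hk : ∃ v : F2, v ^ k = w <;> simp [hk]
    rw [e3]
    refine (Finset.abs_sum_le_sum_abs _ _).trans ?_
    have e4 : ∀ k ∈ Finset.Icc 2 L,
        |∑ w ∈ ((pev h a).coeff.support.erase 1).filter (fun w => ∃ v : F2, v ^ k = w),
          ((pev h a).coeff w).re| ≤ ((D : ℝ) + 1) ^ 3 * ((ball q).card : ℝ) ^ 3 * maj h (regNorm a) := by
      intro k hk
      refine (Finset.abs_sum_le_sum_abs _ _).trans ?_
      refine (Finset.sum_le_sum (fun w _ => Complex.abs_re_le_norm ((pev h a).coeff w))).trans ?_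
      apply MUB_pow h2 a q D k h hr ha hD (Finset.mem_Icc.1 hk).1
      intro w hw
      obtain ⟨hw1, hw2⟩ := Finset.mem_filter.1 hw
      exact ⟨(Finset.mem_erase.1 hw1).1, hw2⟩
    refine (Finset.sum_le_sum e4).trans ?_
    rw [Finset.sum_const, nsmul_eq_mul]
    have e5 : ((Finset.Icc 2 L).card : ℝ) ≤ L := by
      rw [Nat.card_Icc]
      have : L + 1 - 2 ≤ L := by omega
      exact_mod_cast this
    have e6 : (L : ℝ) * ((D : ℝ) + 1) ^ 3 * ((ball q).card : ℝ) ^ 3 * maj h (regNorm a) =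
      L * (((D : ℝ) + 1) ^ 3 * ((ball q).card : ℝ) ^ 3 * maj h (regNorm a)) := by ring
    rw [e6]
    apply mul_le_mul_of_nonneg_right e5
    positivity

end Pool.Agent.RP
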